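import Pool.Agent.W707.HM.Stm

/-! HM-CTW: continuity of the isotropic homogeneous function. -/

set_option autoImplicit false

namespace Pool.Agent.W55.HM

open MeasureTheory Set Filter Topology
open Pool.Agent.W707.HM

lemma quot_mem (F : ℂ × ℂ) : (‖F.1‖ - ‖F.2‖) / (‖F.1‖ + ‖F.2‖) ∈ Icc (-1 : ℝ) 1 := by
  have h1 := norm_nonneg F.1
  have h2 := norm_nonneg F.2
  rcases (add_nonneg h1 h2).eq_or_lt with h | h
  · rw [← h, div_zero]
    constructor <;> norm_num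
  · constructor
    · rw [le_div_iff₀ h]; linarith
    · rw [div_le_one h]; linarith

theorem main : S_CTW := by
  intro p f hp hf
  have hsc : Continuous fun F : ℂ × ℂ => ‖F.1‖ + ‖F.2‖ := continuous_fst.norm.add continuous_snd.norm
  have hpow : Continuous fun F : ℂ × ℂ => (‖F.1‖ + ‖F.2‖) ^ p :=
    hsc.rpow_const fun _ => Or.inr (by linarith)
  rw [continuous_iff_continuousAt]
  intro F
  by_cases hF : F = 0
  · subst hF
    obtain ⟨C, hC⟩ := isCompact_Icc.exists_bound_of_continuousOn hf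
    have h0 : wh p f 0 = 0 := by
      unfold wh
      simp [Real.zero_rpow (by linarith : p ≠ 0)]
    have hlim : Tendsto (fun F : ℂ × ℂ => C * (‖F.1‖ + ‖F.2‖) ^ p) (𝓝 0) (𝓝 0) := by
      have h1 : Tendsto (fun F : ℂ × ℂ => C * (‖F.1‖ + ‖F.2‖) ^ p) (𝓝 0)
          (𝓝 (C * (‖(0 : ℂ × ℂ).1‖ + ‖(0 : ℂ × ℂ).2‖) ^ p)) := (hpow.const_mul C).tendsto 0
      simpa [Real.zero_rpow (by linarith : p ≠ 0)] using h1
    unfold ContinuousAt
    rw [h0]
    refine squeeze_zero_norm (fun G => ?_) hlim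
    unfold wh
    rw [norm_mul, mul_comm]
    have h1 : 0 ≤ ‖G.1‖ + ‖G.2‖ := add_nonneg (norm_nonneg _) (norm_nonneg _)
    rw [Real.norm_of_nonneg (Real.rpow_nonneg h1 p)]
    exact mul_le_mul_of_nonneg_right (hC _ (quot_mem G)) (Real.rpow_nonneg h1 p)
  · have hpos : ‖F.1‖ + ‖F.2‖ ≠ 0 := by
      intro h
      apply hF
      have h1 := norm_nonneg F.1
      have h2 := norm_nonneg F.2
      have h3 : ‖F.1‖ = 0 := by linarith
      have h4 : ‖F.2‖ = 0 := by linarith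
      exact Prod.ext (norm_eq_zero.mp h3) (norm_eq_zero.mp h4)
    have hq : ContinuousAt (fun G : ℂ × ℂ => (‖G.1‖ - ‖G.2‖) / (‖G.1‖ + ‖G.2‖)) F :=
      (continuous_fst.norm.sub continuous_snd.norm).continuousAt.div hsc.continuousAt hpos
    have hq' : Tendsto (fun G : ℂ × ℂ => (‖G.1‖ - ‖G.2‖) / (‖G.1‖ + ‖G.2‖)) (𝓝 F)
        (𝓝[Icc (-1 : ℝ) 1] ((‖F.1‖ - ‖F.2‖) / (‖F.1‖ + ‖F.2‖))) :=
      tendsto_nhdsWithin_iff.mpr ⟨hq, Eventually.of_forall quot_mem⟩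
    have hfq : Tendsto (fun G : ℂ × ℂ => f ((‖G.1‖ - ‖G.2‖) / (‖G.1‖ + ‖G.2‖))) (𝓝 F)
        (𝓝 (f ((‖F.1‖ - ‖F.2‖) / (‖F.1‖ + ‖F.2‖)))) := Tendsto.comp (hf _ (quot_mem F)) hq'
    exact (hpow.tendsto F).mul hfq

end Pool.Agent.W55.HM
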